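import Pool.Agent.E8helper2.PS.Stm

/-!
# Project PS: the Fatou-Riesz theorem
-/

set_option autoImplicit false
open Filter Topology

namespace Pool.Agent.E8helper56.PS

open Pool.Agent.E8helper2.PS

lemma norm_q (w : ℂ) : ‖Complex.exp (Complex.I * w)‖ = Real.exp (-w.im) := by
  rw [Complex.norm_exp]
  congr 1
  simp

lemma norm_q' (w : ℂ) : ‖Complex.exp (-(Complex.I * w))‖ = Real.exp w.im := by
  rw [Complex.norm_exp]
  congr 1
  simp

lemma norm_kernel {w : ℂ} {d : ℝ} (hw : ‖w‖ = d) :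
    ‖w ^ 2 - (d : ℂ) ^ 2‖ = 2 * d * |w.im| := by
  have h1 : (d : ℂ) ^ 2 = w * (starRingEnd ℂ) w := by
    rw [Complex.mul_conj, Complex.normSq_eq_norm_sq, hw]
    push_cast
    ring
  have h2 : w ^ 2 - (d : ℂ) ^ 2 = w * (w - (starRingEnd ℂ) w) := by
    rw [h1]
    ring
  rw [h2, Complex.sub_conj, norm_mul, norm_mul, Complex.norm_I, hw, Complex.norm_real,
    Real.norm_eq_abs, abs_mul, abs_of_pos (by norm_num : (0 : ℝ) < 2)]
  ring

lemma upper_bound {b : ℕ → ℂ} {ε : ℝ} (hb : ∀ n, ‖b n‖ ≤ ε) {q : ℂ} (hq : ‖q‖ < 1) (N : ℕ) :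
    ‖(∑' n, b n * q ^ n) - ∑ n ∈ Finset.range N, b n * q ^ n‖ ≤ ε * ‖q‖ ^ N * (1 - ‖q‖)⁻¹ := by
  have hs : Summable fun n => b n * q ^ n := by
    refine Summable.of_norm_bounded (g := fun n => ε * ‖q‖ ^ n)
      ((summable_geometric_of_lt_one (norm_nonneg q) hq).mul_left ε) (fun n => ?_)
    rw [norm_mul, norm_pow]
    exact mul_le_mul_of_nonneg_right (hb n) (by positivity)
  have h1 := hs.sum_add_tsum_nat_add N
  have h2 : (∑' n, b n * q ^ n) - ∑ n ∈ Finset.range N, b n * q ^ n =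
      ∑' n, b (n + N) * q ^ (n + N) := by
    rw [← h1]
    ring
  rw [h2]
  have hg : HasSum (fun n : ℕ => ε * ‖q‖ ^ N * ‖q‖ ^ n) (ε * ‖q‖ ^ N * (1 - ‖q‖)⁻¹) :=
    (hasSum_geometric_of_lt_one (norm_nonneg q) hq).mul_left _
  refine tsum_of_norm_bounded hg (fun n => ?_)
  rw [norm_mul, norm_pow, pow_add]
  calc ‖b (n + N)‖ * (‖q‖ ^ n * ‖q‖ ^ N) ≤ ε * (‖q‖ ^ n * ‖q‖ ^ N) :=
        mul_le_mul_of_nonneg_right (hb _) (by positivity)
    _ = ε * ‖q‖ ^ N * ‖q‖ ^ n := by ring

lemma lower_bound {b : ℕ → ℂ} {ε : ℝ} (hb : ∀ n, ‖b n‖ ≤ ε) {q : ℂ} (hq : 1 < ‖q‖) (N : ℕ) :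
    ‖∑ n ∈ Finset.range N, b n * q ^ n‖ ≤ ε * (‖q‖ ^ N / (‖q‖ - 1)) := by
  have hε : 0 ≤ ε := (norm_nonneg _).trans (hb 0)
  have h1 : ‖∑ n ∈ Finset.range N, b n * q ^ n‖ ≤ ∑ n ∈ Finset.range N, ε * ‖q‖ ^ n := by
    refine (norm_sum_le _ _).trans (Finset.sum_le_sum fun n _ => ?_)
    rw [norm_mul, norm_pow]
    exact mul_le_mul_of_nonneg_right (hb n) (by positivity)
  rw [← Finset.mul_sum, geom_sum_eq (ne_of_gt hq)] at h1
  refine h1.trans (mul_le_mul_of_nonneg_left ?_ hε)
  have : 0 < ‖q‖ - 1 := by linarith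
  gcongr
  linarith

lemma exp_aux {y : ℝ} (hy : 0 < y) (hy1 : y ≤ 1) : y / 2 ≤ 1 - Real.exp (-y) := by
  have h1 : Real.exp (-y) * (1 + y) ≤ 1 := by
    have h2 : 1 + y ≤ Real.exp y := by linarith [Real.add_one_le_exp y]
    calc Real.exp (-y) * (1 + y) ≤ Real.exp (-y) * Real.exp y :=
          mul_le_mul_of_nonneg_left h2 (Real.exp_pos _).le
      _ = 1 := by rw [← Real.exp_add]; simp
  have h3 : Real.exp (-y) ≤ 1 / (1 + y) := by
    rw [le_div_iff₀ (by linarith)]
    exact h1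
  have h4 : 1 / (1 + y) ≤ 1 - y / 2 := by
    rw [div_le_iff₀ (by linarith)]
    nlinarith
  linarith

lemma exp_aux2 {y : ℝ} {N : ℕ} (hN : 1 ≤ N) :
    Real.exp (-y) ^ N * y ≤ 1 / N := by
  have hN0 : (0 : ℝ) < N := by exact_mod_cast hN
  rw [← Real.exp_nat_mul, le_div_iff₀ hN0]
  have h1 : (N : ℝ) * y ≤ Real.exp ((N : ℝ) * y) := by linarith [Real.add_one_le_exp ((N : ℝ) * y)]
  have h2 : (N : ℝ) * -y = -((N : ℝ) * y) := by ring
  rw [h2]
  calc Real.exp (-((N : ℝ) * y)) * y * N = Real.exp (-((N : ℝ) * y)) * ((N : ℝ) * y) := by ring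
    _ ≤ Real.exp (-((N : ℝ) * y)) * Real.exp ((N : ℝ) * y) :=
        mul_le_mul_of_nonneg_left h1 (Real.exp_pos _).le
    _ = 1 := by rw [← Real.exp_add]; simp

/-- the main estimate -/
lemma key {b : ℕ → ℂ} {ε d C : ℝ} (hb : ∀ n, ‖b n‖ ≤ ε) (hd : 0 < d) (hd1 : d ≤ 1)
    {G : ℂ → ℂ} (hG : DifferentiableOn ℂ G (Metric.closedBall 0 d))
    (hGs : ∀ w ∈ Metric.closedBall (0 : ℂ) d, 0 < w.im →
      G w = ∑' n, b n * Complex.exp (Complex.I * w) ^ n)
    (hC : ∀ w ∈ Metric.closedBall (0 : ℂ) d, ‖G w‖ ≤ C) {N : ℕ} (hN : 1 ≤ N) :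
    ‖G 0 - ∑ n ∈ Finset.range N, b n‖ ≤ (4 * ε + 2 * (C / N)) / d := by
  have hε : 0 ≤ ε := (norm_nonneg _).trans (hb 0)
  have hC0 : 0 ≤ C := (norm_nonneg _).trans (hC 0 (Metric.mem_closedBall_self hd.le))
  have hN0 : (0 : ℝ) < N := by exact_mod_cast hN
  obtain ⟨H, hH⟩ : ∃ H : ℂ → ℂ, H = fun w =>
      (G w - ∑ n ∈ Finset.range N, b n * Complex.exp (Complex.I * w) ^ n) *
        Complex.exp (-(Complex.I * w)) ^ N * (w ^ 2 - (d : ℂ) ^ 2) := ⟨_, rfl⟩
  have hHd : DifferentiableOn ℂ H (Metric.closedBall 0 d) := by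
    rw [hH]
    have h1 : Differentiable ℂ fun w : ℂ =>
        ∑ n ∈ Finset.range N, b n * Complex.exp (Complex.I * w) ^ n := by fun_prop
    have h2 : Differentiable ℂ fun w : ℂ => Complex.exp (-(Complex.I * w)) ^ N := by fun_prop
    have h3 : Differentiable ℂ fun w : ℂ => w ^ 2 - (d : ℂ) ^ 2 := by fun_prop
    exact ((hG.sub h1.differentiableOn).mul h2.differentiableOn).mul h3.differentiableOn
  have hcl : closure (Metric.ball (0 : ℂ) d) = Metric.closedBall 0 d := closure_ball 0 hd.ne'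
  have hdc : DiffContOnCl ℂ H (Metric.ball 0 d) := by
    apply DifferentiableOn.diffContOnCl
    rw [hcl]
    exact hHd
  have hbd : ∀ w ∈ frontier (Metric.ball (0 : ℂ) d), ‖H w‖ ≤ 4 * d * ε + 2 * d * (C / N) := by
    intro w hw
    rw [frontier_ball 0 hd.ne', mem_sphere_zero_iff_norm] at hw
    have hwc : w ∈ Metric.closedBall (0 : ℂ) d := by
      rw [mem_closedBall_zero_iff, hw]
    have hCN : 0 ≤ C / N := by positivity
    have him : |w.im| ≤ 1 := (Complex.abs_im_le_norm w).trans (by rw [hw]; exact hd1)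
    have hform : ‖H w‖ = ‖G w - ∑ n ∈ Finset.range N, b n * Complex.exp (Complex.I * w) ^ n‖ *
        Real.exp w.im ^ N * (2 * d * |w.im|) := by
      rw [hH]
      simp only
      rw [norm_mul, norm_mul, norm_pow, norm_q', norm_kernel hw]
    rw [hform]
    rcases lt_trichotomy w.im 0 with hneg | hzero | hpos
    · -- below
      obtain ⟨y, hy⟩ : ∃ y : ℝ, y = -w.im := ⟨_, rfl⟩
      have hy0 : 0 < y := by rw [hy]; linarith
      have hwim : w.im = -y := by rw [hy]; ring
      have habs : |w.im| = y := by rw [hwim, abs_neg, abs_of_pos hy0]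
      have hq : ‖Complex.exp (Complex.I * w)‖ = Real.exp y := by rw [norm_q, hy]
      have hq1 : 1 < ‖Complex.exp (Complex.I * w)‖ := by
        rw [hq]
        exact Real.one_lt_exp_iff.mpr hy0
      have hlow := lower_bound hb hq1 N
      rw [hq] at hlow
      have hyy : y ≤ Real.exp y - 1 := by linarith [Real.add_one_le_exp y]
      have h1 : ‖G w - ∑ n ∈ Finset.range N, b n * Complex.exp (Complex.I * w) ^ n‖ ≤
          C + ε * (Real.exp y ^ N / y) := by
        refine (norm_sub_le _ _).trans (add_le_add (hC w hwc) (hlow.trans ?_))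
        refine mul_le_mul_of_nonneg_left ?_ hε
        exact div_le_div_of_nonneg_left (by positivity) hy0 hyy
      rw [habs, hwim]
      have hEy : Real.exp y ^ N * Real.exp (-y) ^ N = 1 := by
        rw [← mul_pow, ← Real.exp_add]
        simp
      have h2 := exp_aux2 (y := y) hN
      calc ‖G w - ∑ n ∈ Finset.range N, b n * Complex.exp (Complex.I * w) ^ n‖ *
            Real.exp (-y) ^ N * (2 * d * y)
          ≤ (C + ε * (Real.exp y ^ N / y)) * Real.exp (-y) ^ N * (2 * d * y) := by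
            gcongr
        _ = 2 * d * (C * (Real.exp (-y) ^ N * y)) +
            2 * d * ε * (Real.exp y ^ N * Real.exp (-y) ^ N) := by
            field_simp
        _ = 2 * d * (C * (Real.exp (-y) ^ N * y)) + 2 * d * ε := by rw [hEy, mul_one]
        _ ≤ 2 * d * (C * (1 / N)) + 2 * d * ε := by
            gcongr
        _ = 2 * d * ε + 2 * d * (C / N) := by ring
        _ ≤ 4 * d * ε + 2 * d * (C / N) := by
            have : 0 ≤ d * ε := by positivity
            linarith
    · rw [hzero, abs_zero, mul_zero, mul_zero]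
      positivity
    · -- above
      obtain ⟨y, hy⟩ : ∃ y : ℝ, y = w.im := ⟨_, rfl⟩
      have hy0 : 0 < y := by rw [hy]; exact hpos
      have hy1 : y ≤ 1 := by
        rw [hy]
        exact (le_abs_self _).trans him
      have habs : |w.im| = y := by rw [← hy, abs_of_pos hy0]
      have hq : ‖Complex.exp (Complex.I * w)‖ = Real.exp (-y) := by rw [norm_q, hy]
      have hq1 : ‖Complex.exp (Complex.I * w)‖ < 1 := by
        rw [hq]
        rw [← Real.exp_zero]
        exact Real.exp_lt_exp.mpr (by linarith)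
      have hup := upper_bound hb hq1 N
      rw [← hGs w hwc hpos, hq] at hup
      have hyy := exp_aux hy0 hy1
      rw [habs, ← hy]
      have hEy : Real.exp (-y) ^ N * Real.exp y ^ N = 1 := by
        rw [← mul_pow, ← Real.exp_add]
        simp
      have hinv : (1 - Real.exp (-y))⁻¹ ≤ (y / 2)⁻¹ := inv_anti₀ (by positivity) hyy
      calc ‖G w - ∑ n ∈ Finset.range N, b n * Complex.exp (Complex.I * w) ^ n‖ *
            Real.exp y ^ N * (2 * d * y)
          ≤ (ε * Real.exp (-y) ^ N * (1 - Real.exp (-y))⁻¹) * Real.exp y ^ N * (2 * d * y) := by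
            gcongr
        _ = (Real.exp (-y) ^ N * Real.exp y ^ N) * (2 * d * ε * (y * (1 - Real.exp (-y))⁻¹)) := by
            ring
        _ = 2 * d * ε * (y * (1 - Real.exp (-y))⁻¹) := by rw [hEy, one_mul]
        _ ≤ 2 * d * ε * (y * (y / 2)⁻¹) := by
            gcongr
        _ = 4 * d * ε := by
            field_simp
            ring
        _ ≤ 4 * d * ε + 2 * d * (C / N) := by
            have : 0 ≤ 2 * d * (C / N) := by positivity
            linarith
  have hmax := Complex.norm_le_of_forall_mem_frontier_norm_le Metric.isBounded_ball hdc hbd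
    (z := 0) (by rw [hcl]; exact Metric.mem_closedBall_self hd.le)
  have hH0 : H 0 = (G 0 - ∑ n ∈ Finset.range N, b n) * (-((d : ℂ) ^ 2)) := by
    rw [hH]
    simp
  rw [hH0, norm_mul, norm_neg, norm_pow, Complex.norm_real, Real.norm_eq_abs, abs_of_pos hd] at hmax
  rw [le_div_iff₀ hd]
  have h5 : ‖G 0 - ∑ n ∈ Finset.range N, b n‖ * d * d ≤ (4 * ε + 2 * (C / N)) * d := by
    nlinarith [hmax]
  exact le_of_mul_le_mul_right h5 hd

theorem t_RIESZ : S_RIESZ := by
  intro a z r g ha hz hr hg hgs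
  -- the radius
  have hcont : Continuous fun w : ℂ => z * Complex.exp (Complex.I * w) := by fun_prop
  have htd : ∀ᶠ w in 𝓝 (0 : ℂ), z * Complex.exp (Complex.I * w) ∈ Metric.ball z r := by
    have h1 := hcont.tendsto 0
    rw [mul_zero, Complex.exp_zero, mul_one] at h1
    exact h1 (Metric.ball_mem_nhds z hr)
  obtain ⟨δ, hδ, hδb⟩ := Metric.eventually_nhds_iff.mp htd
  obtain ⟨d, hd⟩ : ∃ d : ℝ, d = min (δ / 2) 1 := ⟨_, rfl⟩
  have hd0 : 0 < d := by rw [hd]; exact lt_min (by positivity) one_pos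
  have hd1 : d ≤ 1 := by rw [hd]; exact min_le_right _ _
  have hdδ : d < δ := by
    rw [hd]
    exact (min_le_left _ _).trans_lt (by linarith)
  have hball : ∀ w ∈ Metric.closedBall (0 : ℂ) d,
      z * Complex.exp (Complex.I * w) ∈ Metric.ball z r := fun w hw =>
    hδb (lt_of_le_of_lt (Metric.mem_closedBall.mp hw) hdδ)
  rw [Metric.tendsto_atTop]
  intro η hη
  obtain ⟨ε, hε⟩ : ∃ ε : ℝ, ε = η * d / 16 := ⟨_, rfl⟩
  have hε0 : 0 < ε := by rw [hε]; positivity
  obtain ⟨m, hm⟩ := Metric.tendsto_atTop.mp ha ε hε0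
  obtain ⟨b, hb⟩ : ∃ b : ℕ → ℂ, b = fun n => if n < m then 0 else a n * z ^ n := ⟨_, rfl⟩
  have hbε : ∀ n, ‖b n‖ ≤ ε := by
    intro n
    rw [hb]
    simp only
    split_ifs with h
    · rw [norm_zero]
      exact hε0.le
    · rw [norm_mul, norm_pow, hz, one_pow, mul_one]
      have := hm n (by omega)
      rw [dist_zero_right] at this
      exact this.le
  obtain ⟨G, hGdef⟩ : ∃ G : ℂ → ℂ, G = fun w => g (z * Complex.exp (Complex.I * w)) -
      ∑ n ∈ Finset.range m, a n * z ^ n * Complex.exp (Complex.I * w) ^ n := ⟨_, rfl⟩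
  have hG : DifferentiableOn ℂ G (Metric.closedBall 0 d) := by
    rw [hGdef]
    have h1 : Differentiable ℂ fun w : ℂ =>
        ∑ n ∈ Finset.range m, a n * z ^ n * Complex.exp (Complex.I * w) ^ n := by fun_prop
    have h2 : Differentiable ℂ fun w : ℂ => z * Complex.exp (Complex.I * w) := by fun_prop
    refine DifferentiableOn.sub ?_ h1.differentiableOn
    exact hg.comp h2.differentiableOn hball
  have hGs : ∀ w ∈ Metric.closedBall (0 : ℂ) d, 0 < w.im →
      G w = ∑' n, b n * Complex.exp (Complex.I * w) ^ n := by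
    intro w hw him
    have hq1 : ‖Complex.exp (Complex.I * w)‖ < 1 := by
      rw [norm_q, ← Real.exp_zero]
      exact Real.exp_lt_exp.mpr (by linarith)
    obtain ⟨q, hq⟩ : ∃ q : ℂ, q = Complex.exp (Complex.I * w) := ⟨_, rfl⟩
    rw [hGdef]
    simp only
    rw [hgs _ (hball w hw) (by rw [norm_mul, hz, one_mul]; exact hq1), ← hq]
    rw [← hq] at hq1
    have hs : Summable fun n => b n * q ^ n := by
      refine Summable.of_norm_bounded (g := fun n => ε * ‖q‖ ^ n)
        ((summable_geometric_of_lt_one (norm_nonneg q) hq1).mul_left ε) (fun n => ?_)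
      rw [norm_mul, norm_pow]
      exact mul_le_mul_of_nonneg_right (hbε n) (by positivity)
    have hsc : HasSum (fun n => if n < m then a n * z ^ n * q ^ n else 0)
        (∑ n ∈ Finset.range m, a n * z ^ n * q ^ n) := by
      have h1 : ∑ n ∈ Finset.range m, a n * z ^ n * q ^ n =
          ∑ n ∈ Finset.range m, (if n < m then a n * z ^ n * q ^ n else 0) := by
        refine Finset.sum_congr rfl fun n hn => ?_
        rw [if_pos (Finset.mem_range.mp hn)]
      rw [h1]
      refine hasSum_sum_of_ne_finset_zero (fun n hn => ?_)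
      rw [if_neg (fun h => hn (Finset.mem_range.mpr h))]
    have hsum : HasSum (fun n => a n * (z * q) ^ n)
        (∑ n ∈ Finset.range m, a n * z ^ n * q ^ n + ∑' n, b n * q ^ n) := by
      have h2 := hsc.add hs.hasSum
      have h3 : (fun n => a n * (z * q) ^ n) =
          fun n => (if n < m then a n * z ^ n * q ^ n else 0) + b n * q ^ n := by
        funext n
        rw [hb, mul_pow]
        simp only
        split_ifs with h
        · ring
        · ring
      rw [h3]
      exact h2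
    rw [hsum.tsum_eq]
    ring
  obtain ⟨C, hC⟩ := (isCompact_closedBall (0 : ℂ) d).exists_bound_of_continuousOn hG.continuousOn
  have hC0 : 0 ≤ C := (norm_nonneg _).trans (hC 0 (Metric.mem_closedBall_self hd0.le))
  obtain ⟨N₁, hN₁⟩ := exists_nat_gt (8 * C / (η * d))
  refine ⟨max m (max 1 N₁), fun N hN => ?_⟩
  have hNm : m ≤ N := (le_max_left _ _).trans hN
  have hN1 : 1 ≤ N := (le_max_left _ _).trans ((le_max_right _ _).trans hN)
  have hNN : N₁ ≤ N := (le_max_right _ _).trans ((le_max_right _ _).trans hN)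
  have hN0 : (0 : ℝ) < N := by exact_mod_cast hN1
  have hkey := key hbε hd0 hd1 hG hGs hC hN1
  have hsb : ∑ n ∈ Finset.range N, b n =
      ∑ n ∈ Finset.range N, a n * z ^ n - ∑ n ∈ Finset.range m, a n * z ^ n := by
    have h1 := Finset.sum_range_add_sum_Ico (fun n => a n * z ^ n) hNm
    have h2 := Finset.sum_range_add_sum_Ico b hNm
    have h3 : ∑ n ∈ Finset.range m, b n = 0 := by
      refine Finset.sum_eq_zero fun n hn => ?_
      rw [hb]
      simp only
      rw [if_pos (Finset.mem_range.mp hn)]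
    have h4 : ∑ n ∈ Finset.Ico m N, b n = ∑ n ∈ Finset.Ico m N, a n * z ^ n := by
      refine Finset.sum_congr rfl fun n hn => ?_
      rw [hb]
      simp only
      rw [if_neg (by have := (Finset.mem_Ico.mp hn).1; omega)]
    rw [← h2, h3, h4, ← h1]
    ring
  have hG0 : G 0 = g z - ∑ n ∈ Finset.range m, a n * z ^ n := by
    rw [hGdef]
    simp
  rw [hG0, hsb] at hkey
  have heq : g z - ∑ n ∈ Finset.range m, a n * z ^ n -
      (∑ n ∈ Finset.range N, a n * z ^ n - ∑ n ∈ Finset.range m, a n * z ^ n) =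
      g z - ∑ n ∈ Finset.range N, a n * z ^ n := by ring
  rw [heq] at hkey
  rw [dist_comm, dist_eq_norm]
  refine hkey.trans_lt ?_
  rw [div_lt_iff₀ hd0]
  have h6 : C / N < η * d / 8 := by
    rw [div_lt_iff₀ hN0]
    have h7 : 8 * C / (η * d) < N := hN₁.trans_le (by exact_mod_cast hNN)
    rw [div_lt_iff₀ (by positivity)] at h7
    linarith
  have h8 : 4 * ε = η * d / 4 := by
    rw [hε]
    ring
  have h9 : 0 < η * d := by positivity
  linarith

end Pool.Agent.E8helper56.PS
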